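import Mathlib
import Pool.Agent.W748.NM.Entropy

set_option autoImplicit false

open Set MeasureTheory

namespace Pool.Agent.Results.MP_ec389a_an.PositiveEntropySupport

open Pool.Agent.W748.NM Pool.Agent.W748.NM.Sph

/-- Both questions have a negative answer: for some real `c` the polynomial `z ^ 2 + c` has a
neutral measure whose support carries positive topological entropy, contains a periodic point,
and on whose support the map is not minimal. -/
theorem result [MeasurableSpace (OnePoint ℂ)] [BorelSpace (OnePoint ℂ)] :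
    ∃ (c : ℝ) (f : OnePoint ℂ → OnePoint ℂ) (μ : Measure (OnePoint ℂ)),
      (∀ z : ℂ, f (z : OnePoint ℂ) = ((z ^ 2 + (c : ℂ) : ℂ) : OnePoint ℂ)) ∧
      IsRationalMap f 2 ∧ IsNeutral f μ ∧
      0 < topEntropy f μ.support ∧
      ¬ IsMinimalOn f μ.support ∧
      ∃ z ∈ μ.support, ∃ n : ℕ, 0 < n ∧ f^[n] z = z := by
  obtain ⟨c, μ, h⟩ := exists_gen
  refine ⟨c, F c, mm μ, F_some c, F_rational c, mm_neutral h, ?_, mm_not_minimal h, mm_periodic h⟩
  rw [mm_support]
  exact topEntropy_pos h

end Pool.Agent.Results.MP_ec389a_an.PositiveEntropySupport
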